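import Pool.Agent.Lib.MP_33ce69_lc.Walk
import Pool.Agent.Lib.Complexity.Bridge

/-!
The algorithm and its running time.
-/

namespace Pool.Agent.Lib.MP_33ce69_lc

open Pool.Agent.Lib.Complexity

/-- `i j` is a chord -/
def Ch (E : List (ℤ × ℤ)) (L : List ℤ) (i j : ℕ) : Prop :=
  ((L.getD i 0, L.getD j 0) ∈ E ∨ (L.getD j 0, L.getD i 0) ∈ E) ∧ j ≠ i + 1 ∧ i ≠ j + 1 ∧
    ¬ (i = 0 ∧ j + 1 = L.length) ∧ ¬ (j = 0 ∧ i + 1 = L.length)

instance (E : List (ℤ × ℤ)) (L : List ℤ) (i j : ℕ) : Decidable (Ch E L i j) := by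
  unfold Ch; infer_instance

def mList (E : List (ℤ × ℤ)) (L : List ℤ) : List ℕ :=
  (List.range L.length).map fun i =>
    ((List.range L.length).find? fun j => decide (Ch E L i j)).getD 0

def mf (M : List ℕ) (i : ℕ) : ℕ := M.getD i 0

def kk (M : List ℕ) : ℕ :=
  ((List.range (M.length + 1)).find? fun k => decide (∃ i ∈ List.range k, Hit (mf M) k i)).getD 0

def jj (M : List ℕ) : ℕ := ((List.range (kk M)).find? fun i => decide (Hit (mf M) (kk M) i)).getD 0

def pairs (M : List ℕ) : List (ℕ × ℕ) :=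
  ((List.range M.length).flatMap fun p => (List.range p).map fun q => (p, q)).filter
    fun x => decide (Fadj M.length (mf M) (kk M) (jj M) x.1 x.2)

def alg (x : List (ℤ × ℤ) × List ℤ) : List (ℤ × ℤ) :=
  (pairs (mList x.1 x.2.tail)).map fun y => (x.2.tail.getD y.1 0, x.2.tail.getD y.2 0)

section
variable {α : Type} [Enc α] {M : α → List ℕ} {a b c d e : α → ℕ}

@[fun_prop] theorem pt_mf (hM : PT M) (ha : PT a) : PT fun x => mf (M x) (a x) := by
  unfold mf; fun_prop

@[fun_prop] theorem pt_nx (hM : PT M) (ha : PT a) : PT fun x => nx (mf (M x)) (a x) := by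
  unfold nx; fun_prop

@[fun_prop] theorem pt_gap (hM : PT M) (ha : PT a) : PT fun x => gap (mf (M x)) (a x) := by
  unfold gap; fun_prop

theorem mf_le (M : List ℕ) (i : ℕ) : mf M i ≤ sz M := by
  unfold mf
  by_cases h : i < M.length
  · rw [List.getD_eq_getElem _ _ h]
    have := sz_lt_of_mem (List.getElem_mem h)
    rw [sz_nat] at this
    omega
  · rw [List.getD_eq_default _ _ (by omega)]
    omega

@[fun_prop] theorem pt_sq (hM : PT M) (ha : PT a) : PT fun x => sq (mf (M x)) (a x) :=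
  PT.iterate (step := fun x => nx (mf (M x))) ha (PT.const 0) (by fun_prop)
    (hM.pb.add (PB.const 1)) fun x i _ => by
      rw [sz_nat]
      cases i with
      | zero => simp
      | succ i =>
        rw [Function.iterate_succ_apply']
        have := mf_le (M x) ((nx (mf (M x)))^[i] 0)
        unfold nx at this ⊢
        split_ifs <;> omega

@[fun_prop] theorem pt_hit (hM : PT M) (ha : PT a) (hb : PT b) :
    PT fun x => decide (Hit (mf (M x)) (a x) (b x)) := by
  have : PT fun x => decide (sq (mf (M x)) (a x) = sq (mf (M x)) (b x) ∨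
      sq (mf (M x)) (a x) = mf (M x) (sq (mf (M x)) (b x))) := by fun_prop
  exact this.of_eq fun x => decide_eq_decide.2 Iff.rfl

@[fun_prop] theorem pt_j0 (hM : PT M) (ha : PT a) (hb : PT b) :
    PT fun x => j0 (mf (M x)) (a x) (b x) := by
  unfold j0; fun_prop

@[fun_prop] theorem pt_rm (hM : PT M) (ha : PT a) (hb : PT b) (hc : PT c) :
    PT fun x => decide (Rm (mf (M x)) (a x) (b x) (c x)) := by
  have : PT fun x => decide (∃ i ∈ List.range (a x), b x ≤ i ∧
      gap (mf (M x)) (sq (mf (M x)) i) = c x) := by fun_prop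
  exact this.of_eq fun x => decide_eq_decide.2 Iff.rfl

@[fun_prop] theorem pt_us (hM : PT M) (ha : PT a) (hb : PT b) (hc : PT c) :
    PT fun x => decide (Us (mf (M x)) (a x) (b x) (c x)) := by
  have : PT fun x => decide (∃ i ∈ List.range (a x), j0 (mf (M x)) (a x) (b x) ≤ i ∧
      sq (mf (M x)) i = c x) := by fun_prop
  exact this.of_eq fun x => decide_eq_decide.2 Iff.rfl

@[fun_prop] theorem pt_fadj (hM : PT M) (ha : PT a) (hb : PT b) (hc : PT c) (hd : PT d)
    (he : PT e) : PT fun x => decide (Fadj (e x) (mf (M x)) (a x) (b x) (c x) (d x)) := by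
  have : PT fun x => decide ((d x = c x + 1 ∧ ¬ Rm (mf (M x)) (a x) (b x) (c x)) ∨
      (c x = d x + 1 ∧ ¬ Rm (mf (M x)) (a x) (b x) (d x)) ∨ (c x = 0 ∧ d x + 1 = e x) ∨
      (d x = 0 ∧ c x + 1 = e x) ∨ (d x = mf (M x) (c x) ∧
        (Us (mf (M x)) (a x) (b x) (c x) ∨ Us (mf (M x)) (a x) (b x) (d x)))) := by fun_prop
  exact this.of_eq fun x => decide_eq_decide.2 Iff.rfl

@[fun_prop] theorem pt_kk (hM : PT M) : PT fun x => kk (M x) := by
  unfold kk; fun_prop

@[fun_prop] theorem pt_jj (hM : PT M) : PT fun x => jj (M x) := by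
  unfold jj; fun_prop

@[fun_prop] theorem pt_pairs (hM : PT M) : PT fun x => pairs (M x) := by
  unfold pairs; fun_prop

@[fun_prop] theorem pt_ch {E : α → List (ℤ × ℤ)} {L : α → List ℤ} (hE : PT E) (hL : PT L)
    (ha : PT a) (hb : PT b) : PT fun x => decide (Ch (E x) (L x) (a x) (b x)) := by
  have : PT fun x => decide (((((L x).getD (a x) 0, (L x).getD (b x) 0) ∈ E x ∨
      ((L x).getD (b x) 0, (L x).getD (a x) 0) ∈ E x) ∧ b x ≠ a x + 1 ∧ a x ≠ b x + 1 ∧
      ¬ (a x = 0 ∧ b x + 1 = (L x).length) ∧ ¬ (b x = 0 ∧ a x + 1 = (L x).length))) := by fun_prop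
  exact this.of_eq fun x => decide_eq_decide.2 Iff.rfl

@[fun_prop] theorem pt_mList {E : α → List (ℤ × ℤ)} {L : α → List ℤ} (hE : PT E) (hL : PT L) :
    PT fun x => mList (E x) (L x) := by
  unfold mList; fun_prop

end

theorem pt_alg : PT alg := by
  unfold alg; fun_prop

theorem find_range {n : ℕ} {p : ℕ → Prop} [DecidablePred p] (h : ∃ i < n, p i) :
    ((List.range n).find? fun i => decide (p i)).getD 0 < n ∧
      p (((List.range n).find? fun i => decide (p i)).getD 0) ∧
      ∀ i < ((List.range n).find? fun i => decide (p i)).getD 0, ¬ p i := by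
  cases e : (List.range n).find? fun i => decide (p i) with
  | none =>
    obtain ⟨i, h1, h2⟩ := h
    exact absurd (List.find?_range_eq_none.1 e i h1) (by simpa using h2)
  | some a =>
    obtain ⟨h1, h2, h3⟩ := List.find?_range_eq_some.1 e
    exact ⟨by simpa using h2, by simpa using h1, fun i hi => by simpa using h3 i hi⟩

theorem stop_alg {M : List ℕ} {side : ℕ → Bool} (hD : Diagram M.length (mf M) side)
    (hn : 0 < M.length) : Stop (mf M) (kk M) (jj M) := by
  have h1 := find_range (p := fun k => ∃ i ∈ List.range k, Hit (mf M) k i) (n := M.length + 1)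
    (by simpa using exists_hit hD hn)
  have h2 := find_range (p := fun i => Hit (mf M) (kk M) i) (n := kk M)
    (by simpa [kk] using h1.2.1)
  exact ⟨fun k' hk i hi h => h1.2.2 k' hk ⟨i, List.mem_range.2 hi, h⟩, h2.1, h2.2.1⟩

theorem mem_pairs {M : List ℕ} {p q : ℕ} : (p, q) ∈ pairs M ↔
    p < M.length ∧ q < p ∧ Fadj M.length (mf M) (kk M) (jj M) p q := by
  simp [pairs, and_assoc]

end Pool.Agent.Lib.MP_33ce69_lc
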