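import Mathlib

/-!
Chord diagrams with two pages: the descent argument.
Positions `0, …, n-1` lie on a line, `m` is the chord partner.
-/

namespace Pool.Agent.Lib.MP_33ce69_lc

open Finset

/-- the neighbour of `m y` on the line in the direction of `y` -/
def nx (m : ℕ → ℕ) (y : ℕ) : ℕ := if m y < y then m y + 1 else m y - 1

/-- the gap `(g, g+1)` between `m y` and `nx m y` -/
def gap (m : ℕ → ℕ) (y : ℕ) : ℕ := if m y < y then m y else m y - 1

structure Diagram (n : ℕ) (m : ℕ → ℕ) (side : ℕ → Bool) : Prop where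
  lt : ∀ i < n, m i < n
  inv : ∀ i < n, m (m i) = i
  ne : ∀ i < n, m i ≠ i
  side_m : ∀ i < n, side (m i) = side i
  cross : ∀ i < n, ∀ j < n, i < j → j < m i → m i < m j → side i ≠ side j

/-- a colouring that is constant along the kept gaps and the used chords -/
structure Closed (n : ℕ) (m : ℕ → ℕ) (Y : Finset ℕ) (col : ℕ → Prop) : Prop where
  line : ∀ g, g + 1 < n → (∀ y ∈ Y, gap m y ≠ g) → (col g ↔ col (g + 1))
  chord : ∀ y ∈ Y, (col y ↔ col (m y))

/-- parity of the number of ends of the chord at `z` to the left of `w` -/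
def cr (m : ℕ → ℕ) (z w : ℕ) : ZMod 2 := (if z < w then 1 else 0) + (if m z < w then 1 else 0)

variable {n : ℕ} {m : ℕ → ℕ} {side : ℕ → Bool} {Y : Finset ℕ}

theorem card_updown (col : ℕ → Prop) [DecidablePred col] (k : ℕ) :
    ((range k).filter fun i => col i ∧ ¬ col (i + 1)).card + (if col k then 1 else 0) =
    ((range k).filter fun i => ¬ col i ∧ col (i + 1)).card + (if col 0 then 1 else 0) := by
  induction k with
  | zero => simp
  | succ k ih =>
    rw [range_add_one, filter_insert, filter_insert]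
    by_cases h1 : col k <;> by_cases h2 : col (k + 1) <;>
      simp [h1, h2, card_insert_of_notMem] at ih ⊢ <;> omega

theorem gap_cases (hD : Diagram n m side) {y : ℕ} (hy : y < n) :
    (m y < y ∧ gap m y = m y ∧ nx m y = m y + 1) ∨
    (y < m y ∧ gap m y + 1 = m y ∧ nx m y = gap m y) := by
  have := hD.ne y hy
  unfold gap nx
  split_ifs with h
  · left; omega
  · right; omega

theorem exits_card (hD : Diagram n m side) (hY : ∀ y ∈ Y, y < n) {σ : ℕ → ℕ}
    (hσ : Set.BijOn σ Y Y) {col : ℕ → Prop} [DecidablePred col] (hc : Closed n m Y col)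
    (hf : ∀ y ∈ Y, (col (nx m y) ↔ col (σ y))) (h0 : ¬ col 0) (hn : ¬ col (n - 1)) :
    ((range (n - 1)).filter fun i => col i ∧ ¬ col (i + 1)).card ≤
      (Y.filter fun y => col y ∧ ¬ col (nx m y)).card := by
  have h1 := card_updown col (n - 1)
  rw [if_neg h0, if_neg hn] at h1
  have h2 : (Y.filter fun y => col (nx m y)).card = (Y.filter fun y => col y).card := by
    refine card_bij (fun y _ => σ y) ?_ ?_ ?_
    · intro y hy
      rw [mem_filter] at hy ⊢
      exact ⟨hσ.mapsTo hy.1, (hf y hy.1).1 hy.2⟩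
    · intro a ha b hb h
      exact hσ.injOn (mem_filter.1 ha).1 (mem_filter.1 hb).1 h
    · intro b hb
      obtain ⟨a, ha, rfl⟩ := hσ.surjOn (mem_filter.1 hb).1
      exact ⟨a, mem_filter.2 ⟨ha, (hf a ha).2 (mem_filter.1 hb).2⟩, rfl⟩
  have h3 := card_filter_add_card_filter_not (s := Y.filter fun y => col (nx m y)) col
  have h4 := card_filter_add_card_filter_not (s := Y.filter fun y => col y)
    (fun y => col (nx m y))
  rw [filter_filter, filter_filter] at h3 h4
  have h5 : (Y.filter fun y => col (nx m y) ∧ col y) = Y.filter fun y => col y ∧ col (nx m y) := by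
    simp only [and_comm]
  rw [h5] at h3
  have h6 : ((range (n - 1)).filter fun i => col i ∧ ¬ col (i + 1)) ∪
      ((range (n - 1)).filter fun i => ¬ col i ∧ col (i + 1)) ⊆
      ((Y.filter fun y => col y ∧ ¬ col (nx m y)) ∪
        (Y.filter fun y => col (nx m y) ∧ ¬ col y)).image (gap m) := by
    intro g hg
    have hg1 : g + 1 < n ∧ ¬ (col g ↔ col (g + 1)) := by
      simp only [mem_union, mem_filter, mem_range] at hg
      refine ⟨by omega, ?_⟩
      tauto
    obtain ⟨y, hy, e⟩ : ∃ y ∈ Y, gap m y = g := by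
      by_contra h
      push Not at h
      exact hg1.2 (hc.line g hg1.1 h)
    refine mem_image.2 ⟨y, ?_, e⟩
    have := hc.chord y hy
    simp only [mem_union, mem_filter, hy, true_and]
    rcases gap_cases hD (hY y hy) with ⟨-, e1, e2⟩ | ⟨-, e1, e2⟩
    · rw [e2, this, ← e1, e]; tauto
    · rw [e2, this, ← e1, e]; tauto
  have h7 := (card_le_card h6).trans (card_image_le.trans (card_union_le _ _))
  rw [card_union_of_disjoint (by
    rw [disjoint_filter]; tauto)] at h7
  omega

theorem exists_relation {T D : Finset ℕ} (h : D.card < T.card) (v : ℕ → ℕ → ZMod 2) :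
    ∃ f : ℕ → ZMod 2, (∀ g ∈ D, ∑ z ∈ T, f z * v z g = 0) ∧ ∃ z ∈ T, f z ≠ 0 := by
  have h1 : ¬ LinearIndependent (ZMod 2) (fun z : T => fun g : D => v z g) := by
    intro hl
    have := hl.fintype_card_le_finrank
    simp at this
    omega
  obtain ⟨f, hf, z, hz⟩ := Fintype.not_linearIndependent_iff.1 h1
  refine ⟨fun z => if h : z ∈ T then f ⟨z, h⟩ else 0, fun g hg => ?_, z, z.2, by simpa using hz⟩
  have := congrFun hf ⟨g, hg⟩
  rw [← sum_coe_sort T]
  simpa using this

theorem cr_succ {z w : ℕ} (h1 : z ≠ w) (h2 : m z ≠ w) : cr m z (w + 1) = cr m z w := by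
  unfold cr
  have e1 : z < w + 1 ↔ z < w := by omega
  have e2 : m z < w + 1 ↔ m z < w := by omega
  simp only [e1, e2]

theorem cr_chord (hD : Diagram n m side) {z y : ℕ} (hz : z < n) (hy : y < n)
    (hs : side z = side y) (h1 : z ≠ y) (h2 : z ≠ m y) : cr m z y = cr m z (m y) := by
  have a1 := hD.lt z hz
  have a2 := hD.lt y hy
  have b1 := hD.inv z hz
  have b2 := hD.inv y hy
  have c1 := hD.side_m z hz
  have c2 := hD.side_m y hy
  have d1 := hD.ne z hz
  have d2 := hD.ne y hy
  have h3 : m z ≠ y := fun h => h2 (by rw [← h, b1])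
  have h4 : m z ≠ m y := fun h => h1 (by rw [← b1, h, b2])
  have x1 := hD.cross z hz y hy
  have x2 := hD.cross z hz (m y) a2
  have x3 := hD.cross (m z) a1 y hy
  have x4 := hD.cross (m z) a1 (m y) a2
  have x5 := hD.cross y hy z hz
  have x6 := hD.cross y hy (m z) a1
  have x7 := hD.cross (m y) a2 z hz
  have x8 := hD.cross (m y) a2 (m z) a1
  simp only [b1, b2, c1, c2, hs, ne_eq, not_true_eq_false, imp_false] at x1 x2 x3 x4 x5 x6 x7 x8
  unfold cr
  split_ifs <;> first | rfl | omega

theorem descent_step (hD : Diagram n m side) (hY : ∀ y ∈ Y, y < n) (hs : ∀ y ∈ Y, m y ∉ Y)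
    {σ : ℕ → ℕ} (hσ : Set.BijOn σ Y Y) {col : ℕ → Prop} (hc : Closed n m Y col)
    (hf : ∀ y ∈ Y, (col (nx m y) ↔ col (σ y))) {k : ℕ} (hk : 0 < k) (h0 : ∀ i < k, ¬ col i)
    (hn : ¬ col (n - 1)) {i : ℕ} (hi : i < n) (hci : col i) :
    ∃ col' : ℕ → Prop, Closed n m Y col' ∧ (∀ i < k + 1, ¬ col' i) ∧ ¬ col' (n - 1) ∧
      ∃ i < n, col' i := by
  classical
  set D := (range (n - 1)).filter fun i => col i ∧ ¬ col (i + 1) with hDdef
  set T := Y.filter fun y => col y ∧ ¬ col (nx m y) with hT
  have hcard : D.card ≤ T.card := exits_card hD hY hσ hc hf (h0 0 hk) hn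
  -- the largest coloured position
  have hne : ((range n).filter col).Nonempty := ⟨i, by simp [hi, hci]⟩
  set r := ((range n).filter col).max' hne with hr
  have hr1 : r < n ∧ col r := by
    have := mem_filter.1 (((range n).filter col).max'_mem hne)
    exact ⟨mem_range.1 this.1, this.2⟩
  have hr2 : ∀ j < n, col j → j ≤ r := fun j hj h => le_max' _ _ (by simp [hj, h])
  have hr3 : r < n - 1 := by
    by_contra h
    exact hn ((show r = n - 1 by omega) ▸ hr1.2)
  have hrD : r ∈ D := by
    rw [hDdef, mem_filter, mem_range]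
    exact ⟨hr3, hr1.2, fun h => by have := hr2 (r + 1) (by omega) h; omega⟩
  obtain ⟨f, hf0, z0, hz0, hfz0⟩ := exists_relation (T := T) (D := D.erase r)
    (by rw [card_erase_of_mem hrD]; have := card_pos.2 ⟨r, hrD⟩; omega) fun z g => cr m z (g + 1)
  have hTc : ∀ z ∈ T, z ∈ Y ∧ z < n ∧ m z < n ∧ col z ∧ col (m z) ∧ ¬ col (nx m z) := by
    intro z hz
    obtain ⟨h1, h2, h3⟩ := mem_filter.1 hz
    exact ⟨h1, hY z h1, hD.lt z (hY z h1), h2, (hc.chord z h1).1 h2, h3⟩
  have hstep : ∀ z ∈ T, ∀ w, ¬ col w → cr m z (w + 1) = cr m z w := fun z hz w hw =>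
    cr_succ (fun h => hw (h ▸ (hTc z hz).2.2.2.1)) (fun h => hw (h ▸ (hTc z hz).2.2.2.2.1))
  have htop : ∀ z ∈ T, ∀ w, r < w → cr m z w = 0 := by
    intro z hz w hw
    obtain ⟨-, h1, h2, h3, h4, -⟩ := hTc z hz
    have := hr2 z h1 h3
    have := hr2 _ h2 h4
    unfold cr
    rw [if_pos (by omega), if_pos (by omega)]
    rfl
  have hΦ : ∀ w < n, ¬ col w → ∑ z ∈ T, f z * cr m z w = 0 := by
    intro w
    induction w with
    | zero => intro _ _; simp [cr]
    | succ w ih =>
      intro hw hcw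
      by_cases h : col w
      · by_cases e : w = r
        · exact sum_eq_zero fun z hz => by rw [htop z hz _ (by omega), mul_zero]
        · exact hf0 w (mem_erase.2 ⟨e, mem_filter.2 ⟨mem_range.2 (by omega), h, hcw⟩⟩)
      · rw [← ih (by omega) h]
        exact sum_congr rfl fun z hz => by rw [hstep z hz w h]
  let A : Bool → ℕ → ZMod 2 := fun b w => ∑ z ∈ T.filter (fun z => side z = b), f z * cr m z w
  have hAB : ∀ w < n, ¬ col w → ∀ b, A b w = A true w := by
    intro w hw hcw b
    cases b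
    · have h1 := hΦ w hw hcw
      rw [← sum_filter_add_sum_filter_not T (fun z => side z = true)] at h1
      have h2 : T.filter (fun z => ¬ side z = true) = T.filter (fun z => side z = false) := by simp
      rw [h2] at h1
      change A true w + A false w = 0 at h1
      generalize A true w = a at *
      generalize A false w = b at *
      revert a b; decide
    · rfl
  refine ⟨fun w => ¬ col w ∧ A true w ≠ 0, ⟨?_, ?_⟩, ?_, ?_, ?_⟩
  · intro g hg h
    have h1 := hc.line g hg h
    by_cases h2 : col g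
    · simp [h2, h1.1 h2]
    · have : A true (g + 1) = A true g :=
        sum_congr rfl fun z hz => by rw [hstep z (mem_filter.1 hz).1 g h2]
      simp [← h1, this]
  · intro y hy
    have h1 := hc.chord y hy
    by_cases h2 : col y
    · simp [h2, h1.1 h2]
    · have h3 : ¬ col (m y) := fun h => h2 (h1.2 h)
      have : A (side y) y = A (side y) (m y) := sum_congr rfl fun z hz => by
        obtain ⟨hz1, hz2⟩ := mem_filter.1 hz
        obtain ⟨-, a1, -, a2, -⟩ := hTc z hz1
        rw [cr_chord hD a1 (hY y hy) hz2 (fun h => h2 (h ▸ a2)) (fun h => h3 (h ▸ a2))]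
      rw [hAB y (hY y hy) h2, hAB _ (hD.lt y (hY y hy)) h3] at this
      simp [h2, h3, this]
  · rintro w hw ⟨-, h⟩
    refine h (sum_eq_zero fun z hz => ?_)
    obtain ⟨-, -, -, a1, a2, -⟩ := hTc z (mem_filter.1 hz).1
    have b1 : ¬ z < w := fun h => h0 z (by omega) a1
    have b2 : ¬ m z < w := fun h => h0 _ (by omega) a2
    simp [cr, b1, b2]
  · rintro ⟨-, h⟩
    exact h (sum_eq_zero fun z hz => by rw [htop z (mem_filter.1 hz).1 _ hr3, mul_zero])
  · obtain ⟨y, hy, hmax⟩ := exists_max_image (T.filter fun z => f z ≠ 0)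
      (fun z => max z (m z) - min z (m z)) ⟨z0, mem_filter.2 ⟨hz0, hfz0⟩⟩
    obtain ⟨hyT, hfy⟩ := mem_filter.1 hy
    obtain ⟨y1, y2, y3, y4, y5, y6⟩ := hTc y hyT
    have hg := gap_cases hD y2
    have hw : nx m y < n := by omega
    have hwy : nx m y ≠ y := fun h => y6 (h.symm ▸ y4)
    refine ⟨nx m y, hw, y6, ?_⟩
    rw [← hAB _ hw y6 (side y)]
    have : A (side y) (nx m y) = f y * cr m y (nx m y) := by
      refine sum_eq_single_of_mem y (mem_filter.2 ⟨hyT, rfl⟩) fun z hz hzy => ?_
      obtain ⟨hz1, hz2⟩ := mem_filter.1 hz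
      by_cases hfz : f z = 0
      · rw [hfz, zero_mul]
      obtain ⟨z1, z2, z3, z4, z5, -⟩ := hTc z hz1
      have hle := hmax z (mem_filter.2 ⟨hz1, hfz⟩)
      have n1 : z ≠ m y := fun h => hs y y1 (h ▸ z1)
      have n2 : m z ≠ y := fun h => hs z z1 (h ▸ y1)
      have n3 : m z ≠ m y := fun h => hzy (by rw [← hD.inv z z2, h, hD.inv y y2])
      have n4 : z ≠ nx m y := fun h => y6 (h ▸ z4)
      have n5 : m z ≠ nx m y := fun h => y6 (h ▸ z5)
      have hcc := cr_chord hD z2 y2 hz2 hzy n1
      have : cr m z (nx m y) = 0 := by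
        unfold cr at hcc ⊢
        split_ifs at hcc ⊢ <;> first | rfl | omega | exact absurd hcc (by decide)
      rw [this, mul_zero]
    rw [this]
    have : cr m y (nx m y) = 1 := by
      unfold cr
      split_ifs <;> first | rfl | omega
    rw [this, mul_one]
    exact hfy

/-- a closed colouring that misses both ends of the line is empty -/
theorem descent (hD : Diagram n m side) (hY : ∀ y ∈ Y, y < n) (hs : ∀ y ∈ Y, m y ∉ Y)
    {σ : ℕ → ℕ} (hσ : Set.BijOn σ Y Y)
    (hf : ∀ col, Closed n m Y col → ∀ y ∈ Y, (col (nx m y) ↔ col (σ y)))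
    {col : ℕ → Prop} (hc : Closed n m Y col) (h0 : ¬ col 0) (hn : ¬ col (n - 1)) :
    ∀ i < n, ¬ col i := by
  have key : ∀ d k, 0 < k → n ≤ k + d → ∀ col : ℕ → Prop, Closed n m Y col → (∀ i < k, ¬ col i) →
      ¬ col (n - 1) → ∀ i < n, ¬ col i := by
    intro d
    induction d with
    | zero => intro k _ hk col _ h _ i hi; exact h i (by omega)
    | succ d ih =>
      intro k hk0 hk col hc h hn i hi hci
      obtain ⟨col', c1, c2, c3, j, hj, c4⟩ :=
        descent_step hD hY hs hσ hc (hf col hc) hk0 h hn hi hci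
      exact ih (k + 1) (by omega) (by omega) col' c1 c2 c3 j hj c4
  exact key n 1 one_pos (by omega) col hc (fun i hi => by
    obtain rfl : i = 0 := by omega
    exact h0) hn

end Pool.Agent.Lib.MP_33ce69_lc
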