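import Mathlib

namespace Pool.Agent.Lib.MP_33ce69_lc

/-- `G` is planar: the vertices are distinct points of the plane, the edges are simple arcs
between their ends, no arc passes through a vertex, and arcs of different edges meet only at
their ends. -/
def IsPlanar {V : Type} (G : SimpleGraph V) : Prop :=
  ∃ (pos : V → ℂ) (arc : V → V → unitInterval → ℂ), Function.Injective pos ∧
    (∀ u v, G.Adj u v → Continuous (arc u v) ∧ Function.Injective (arc u v) ∧
      arc u v 0 = pos u ∧ arc u v 1 = pos v ∧ ∀ a w, arc u v a = pos w → a = 0 ∨ a = 1) ∧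
    ∀ u v x y, G.Adj u v → G.Adj x y → s(u, v) ≠ s(x, y) →
      ∀ a b, arc u v a = arc x y b → (a = 0 ∨ a = 1) ∧ (b = 0 ∨ b = 1)

/-- The list `E` of pairs lists exactly the edges in `S`. -/
def Lists {n : ℕ} (E : List (ℕ × ℕ)) (S : Set (Sym2 (Fin n))) : Prop :=
  (∀ p ∈ E, p.1 < n ∧ p.2 < n) ∧
    ∀ a b : Fin n, s(a, b) ∈ S ↔ (a.val, b.val) ∈ E ∨ (b.val, a.val) ∈ E

end Pool.Agent.Lib.MP_33ce69_lc
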