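import Pool.Agent.Lib.MP_68dca0_co.K33

/-!
A planar drawing splits the chords of a Hamiltonian cycle into two non-crossing classes
(through the van Kampen cocycle).
-/

namespace Pool.Agent.Lib.MP_33ce69_lc

open Finset Complex Pool.Agent.Lib.MP_68dca0_co
open scoped Real

def ind (a b : ℕ) : ZMod 2 := if a < b then 1 else 0

theorem exists_cocycle (E : ℕ → ℕ → Prop) (pos : ℕ → ℂ) (γ : ℕ → ℕ → unitInterval → ℂ)
    (hc : ∀ a b, E a b → Continuous (γ a b) ∧ γ a b 0 = pos a ∧ γ a b 1 = pos b)
    (hd : ∀ a b c d, E a b → E c d → a ≠ c → a ≠ d → b ≠ c → b ≠ d → ∀ s t, γ a b s ≠ γ c d t) :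
    ∃ x : ℕ → ℕ → ℕ → ZMod 2, ∀ a b c d, E a b → E c d → a ≠ c → a ≠ d → b ≠ c → b ≠ d →
      x a b c + x a b d + x c d a + x c d b = ind a c + ind a d + ind b c + ind b d := by
  choose n hn using log_swap
  have hN : ∀ a b (w : ℂ), ∃ m : ℤ, E a b → (∀ s, γ a b s ≠ w) →
      IsVar (fun s => γ a b s - w) (log (pos b - w) - log (pos a - w) + m * (2 * π * I)) := by
    intro a b w
    by_cases h : E a b ∧ ∀ s, γ a b s ≠ w
    · obtain ⟨h1, h2, h3⟩ := hc a b h.1
      obtain ⟨m, hm⟩ := exists_isVar (γ := fun s => γ a b s - w) (by fun_prop)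
        (fun s => sub_ne_zero.2 (h.2 s))
      rw [h2, h3] at hm
      exact ⟨m, fun _ _ => hm⟩
    · exact ⟨0, fun h1 h2 => absurd ⟨h1, h2⟩ h⟩
  choose N hN using hN
  have anti : ∀ p q : ℂ, p ≠ q → n p q + n q p + 1 = 0 := by
    intro p q h
    have e1 := hn p q h
    have e2 := hn q p h.symm
    have e3 : ((n p q + n q p + 1 : ℤ) : ℂ) * (2 * π * I) = 0 := by
      push_cast; linear_combination -e1 - e2
    exact_mod_cast (mul_eq_zero.1 e3).resolve_right two_pi_I_ne_zero
  let ν : ℕ → ℕ → ZMod 2 := fun u w => if u < w then (n (pos u) (pos w) : ZMod 2) else 0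
  refine ⟨fun a b w => (N a b (pos w) : ZMod 2) + ν a w + ν b w,
    fun a b c d h1 h2 ac ad bc bd => ?_⟩
  have dj := hd a b c d h1 h2 ac ad bc bd
  obtain ⟨a1, a2, a3⟩ := hc a b h1
  obtain ⟨c1, c2, c3⟩ := hc c d h2
  have v := var_square a1 c1 dj
    (by rw [c2]; exact hN a b (pos c) h1 (fun s => c2 ▸ dj s 0))
    (by rw [a3]; exact hN c d (pos b) h2 (fun s => a3 ▸ (dj 1 s).symm))
    (by rw [a2]; exact hN c d (pos a) h2 (fun s => a2 ▸ (dj 0 s).symm))
    (by rw [c3]; exact hN a b (pos d) h1 (fun s => c3 ▸ dj s 1))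
  have p1 : pos b ≠ pos c := by rw [← a3, ← c2]; exact dj _ _
  have p2 : pos a ≠ pos c := by rw [← a2, ← c2]; exact dj _ _
  have p3 : pos d ≠ pos b := by rw [← a3, ← c3]; exact (dj _ _).symm
  have p4 : pos d ≠ pos a := by rw [← a2, ← c3]; exact (dj _ _).symm
  have e1 := hn _ _ p1
  have e2 := hn _ _ p2
  have e3 := hn _ _ p3
  have e4 := hn _ _ p4
  have e5 : ((n (pos b) (pos c) - n (pos a) (pos c) + n (pos d) (pos b) - n (pos d) (pos a)
      + N a b (pos c) + N c d (pos b) - N c d (pos a) - N a b (pos d) : ℤ) : ℂ) * (2 * π * I) = 0 := by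
    push_cast; linear_combination v - e1 + e2 - e3 + e4
  have e6 : n (pos b) (pos c) - n (pos a) (pos c) + n (pos d) (pos b) - n (pos d) (pos a)
      + N a b (pos c) + N c d (pos b) - N c d (pos a) - N a b (pos d) = 0 := by
    exact_mod_cast (mul_eq_zero.1 e5).resolve_right two_pi_I_ne_zero
  have e7 := congrArg (Int.cast : ℤ → ZMod 2) e6
  push_cast at e7
  have h2' : (2 : ZMod 2) = 0 := rfl
  have key : ∀ u w, u ≠ w → pos u ≠ pos w →
      ν u w + ν w u = (n (pos u) (pos w) : ZMod 2) + 1 + ind u w := by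
    intro u w huw hp
    have := congrArg (Int.cast : ℤ → ZMod 2) (anti _ _ hp)
    push_cast at this
    rcases lt_or_gt_of_ne huw with h | h
    · simp only [ν, ind, if_pos h, if_neg h.not_gt]
      linear_combination (-1 : ZMod 2) * h2'
    · simp only [ν, ind, if_pos h, if_neg h.not_gt]
      linear_combination this - ((n (pos u) (pos w) : ZMod 2) + 1) * h2'
  have key2 : ∀ u w, u ≠ w → ind u w + ind w u = 1 := by
    intro u w huw
    rcases lt_or_gt_of_ne huw with h | h <;> simp [ind, h, h.not_gt]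
  have k1 := key b c bc p1
  have k2 := key a c ac p2
  have k3 := key d b bd.symm p3
  have k4 := key d a ad.symm p4
  have k5 := key2 b d bd
  have k6 := key2 a d ad
  linear_combination e7 + k1 + k2 + k3 + k4 + k5 + k6 +
    ((n (pos a) (pos c) : ZMod 2) + (n (pos d) (pos a) : ZMod 2) + (N c d (pos a) : ZMod 2) +
      (N a b (pos d) : ZMod 2) + 3 - ind b d - ind a d) * h2'

theorem side_of_cocycle {n : ℕ} {E : ℕ → ℕ → Prop} (hl : ∀ i, i + 1 < n → E i (i + 1))
    (hcl : E 0 (n - 1)) {x : ℕ → ℕ → ℕ → ZMod 2}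
    (hx : ∀ a b c d, E a b → E c d → a ≠ c → a ≠ d → b ≠ c → b ≠ d →
      x a b c + x a b d + x c d a + x c d b = ind a c + ind a d + ind b c + ind b d) :
    ∃ s : ℕ → ℕ → ZMod 2, ∀ a c b d, a < c → c < b → b < d → d < n → E a b → E c d →
      s a b + s c d = 1 := by
  have h2' : (2 : ZMod 2) = 0 := rfl
  let P : ℕ → ℕ → ZMod 2 := fun w j =>
    ∑ i ∈ range j, if i = w ∨ i + 1 = w then 0 else x i (i + 1) w
  have hP : ∀ w j, j ≠ w → j + 1 ≠ w → P w (j + 1) = P w j + x j (j + 1) w := by
    intro w j h1 h2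
    simp only [P, sum_range_succ]
    rw [if_neg (by omega)]
  have hP0 : ∀ w, P w 0 = 0 := fun w => by simp [P]
  have hind : ∀ a j, a ≠ j → ind a (j + 1) = ind a j := by
    intro a j h
    have : a < j + 1 ↔ a < j := by omega
    simp only [ind, this]
  let h : ℕ → ℕ → ℕ → ZMod 2 := fun a b j => x a b j + P a j + P b j
  have hstep : ∀ a b j, E a b → j + 1 < n → a ≠ j → a ≠ j + 1 → b ≠ j → b ≠ j + 1 →
      h a b (j + 1) = h a b j := by
    intro a b j e hj h1 h2 h3 h4
    have := hx a b j (j + 1) e (hl j hj) h1 h2 h3 h4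
    rw [hind a j h1, hind b j h3] at this
    simp only [h]
    rw [hP a j h1.symm h2.symm, hP b j h3.symm h4.symm]
    linear_combination this + (ind a j + ind b j - x a b j) * h2'
  have hconst : ∀ a b j j', E a b → j ≤ j' → j' < n → (a < j ∨ j' < a) → (b < j ∨ j' < b) →
      h a b j' = h a b j := by
    intro a b j j' e hj
    induction j', hj using Nat.le_induction with
    | base => intros; rfl
    | succ j' hj ih =>
      intro h1 h2 h3
      rw [hstep a b j' e h1 (by omega) (by omega) (by omega) (by omega),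
        ih (by omega) (by omega) (by omega)]
  let Q : ℕ → ℕ → ZMod 2 := fun w j => P w j + P j w
  have flat : ∀ w j j', w + 1 < j → j ≤ j' → j' < n →
      Q w j' + Q (w + 1) j' = Q w j + Q (w + 1) j := by
    intro w j j' h1 hj
    induction j', hj using Nat.le_induction with
    | base => intros; rfl
    | succ j' hj ih =>
      intro h2
      rw [← ih (by omega)]
      have := hx w (w + 1) j' (j' + 1) (hl w (by omega)) (hl j' h2) (by omega) (by omega)
        (by omega) (by omega)
      simp only [ind] at this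
      rw [if_pos (by omega), if_pos (by omega), if_pos (by omega), if_pos (by omega)] at this
      simp only [Q]
      rw [hP w j' (by omega) (by omega), hP (w + 1) j' (by omega) (by omega),
        hP j' w (by omega) (by omega), hP (j' + 1) w (by omega) (by omega)]
      linear_combination this + (2 + P (j' + 1) w - P j' w - x w (w + 1) j') * h2'
  have rect : ∀ w j, w < j → j < n → Q w j = Q 0 j + Q w (n - 1) + Q 0 (n - 1) := by
    intro w j
    induction w with
    | zero => intro _ _; linear_combination (-Q 0 (n - 1)) * h2'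
    | succ w ih =>
      intro h1 h2
      have e1 := ih (by omega) h2
      have e2 := flat w j (n - 1) h1 (by omega) (by omega)
      linear_combination e1 - e2 + (Q w (n - 1) - Q w j) * h2'
  let uv : ℕ → ZMod 2 := fun w => Q w (n - 1) + Q 0 (n - 1) + Q 0 w
  refine ⟨fun a b => if b + 1 < n then h a b (a + 1) + h a b (n - 1) + uv b
    else h a b 0 + h a b (a + 1) + uv a, fun a c b d ac cb bd dn e1 e2 => ?_⟩
  have hcd : (if d + 1 < n then h c d (c + 1) + h c d (n - 1) + uv d
      else h c d 0 + h c d (c + 1) + uv c) = h c d 0 + h c d (c + 1) + uv c := by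
    split_ifs with z
    · have t1 := hx c d 0 (n - 1) e2 hcl (by omega) (by omega) (by omega) (by omega)
      simp only [ind] at t1
      rw [if_neg (by omega), if_pos (by omega), if_neg (by omega), if_pos (by omega)] at t1
      have t2 := hconst 0 (n - 1) c d hcl (by omega) dn (by omega) (by omega)
      simp only [h, uv, Q, hP0] at t2 ⊢
      linear_combination t1 + t2 + (1 + P d (n - 1) - x c d 0 - x 0 (n - 1) d) * h2'
    · rfl
  simp only []
  rw [hcd, if_pos (by omega)]
  have t := hx a b c d e1 e2 (by omega) (by omega) (by omega) (by omega)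
  simp only [ind] at t
  rw [if_pos (by omega), if_pos (by omega), if_neg (by omega), if_pos (by omega)] at t
  have t1 := hconst a b (a + 1) c e1 (by omega) (by omega) (by omega) (by omega)
  have t2 := hconst a b d (n - 1) e1 (by omega) (by omega) (by omega) (by omega)
  have t3 := hconst c d 0 a e2 (by omega) (by omega) (by omega) (by omega)
  have t4 := hconst c d (c + 1) b e2 (by omega) (by omega) (by omega) (by omega)
  have r1 := rect a c ac (by omega)
  have r2 := rect c b cb (by omega)
  have r3 := rect a d (by omega) dn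
  have r4 := rect b d bd dn
  rw [← t1, t2, ← t3, ← t4]
  simp only [h, uv]
  simp only [Q] at r1 r2 r3 r4
  linear_combination t + r1 + r2 + r3 + r4 + (1 + Q 0 c + Q 0 b + Q 0 d + Q a (n - 1) +
    Q b (n - 1) + Q c (n - 1) + 3 * Q 0 (n - 1)) * h2'

end Pool.Agent.Lib.MP_33ce69_lc
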