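import Pool.Agent.Lib.MP_33ce69_lc.Defs
import Pool.Agent.Lib.MP_33ce69_lc.Alg
import Pool.Agent.Lib.MP_33ce69_lc.Planar

namespace Pool.Agent.Lib.MP_33ce69_lc

open Pool.Agent.Lib.Complexity SimpleGraph

section
variable {n : ℕ} {G : SimpleGraph (Fin n)} {p : ℕ → Fin n}

/-- `p` lists the vertices along a Hamiltonian cycle -/
structure Ham (G : SimpleGraph (Fin n)) (p : ℕ → Fin n) : Prop where
  three : 3 ≤ n
  inj : ∀ i < n, ∀ j < n, p i = p j → i = j
  line : ∀ i, i + 1 < n → G.Adj (p i) (p (i + 1))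
  close : G.Adj (p 0) (p (n - 1))

theorem Ham.surj (h : Ham G p) (a : Fin n) : ∃ i < n, p i = a := by
  obtain ⟨i, hi⟩ := Finite.surjective_of_injective (f := fun i : Fin n => p i)
    (fun i j e => Fin.ext (h.inj _ i.2 _ j.2 e)) a
  exact ⟨i, i.2, hi⟩

def Chord (G : SimpleGraph (Fin n)) (p : ℕ → Fin n) (i j : ℕ) : Prop :=
  G.Adj (p i) (p j) ∧ j ≠ i + 1 ∧ i ≠ j + 1 ∧ ¬ (i = 0 ∧ j + 1 = n) ∧ ¬ (j = 0 ∧ i + 1 = n)

theorem Chord.symm {i j : ℕ} (h : Chord G p i j) : Chord G p j i :=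
  ⟨h.1.symm, h.2.2.1, h.2.1, h.2.2.2.2, h.2.2.2.1⟩

theorem Ham.chord (h : Ham G p) [DecidableRel G.Adj] (hr : G.IsRegularOfDegree 3) {i : ℕ}
    (hi : i < n) : (∃ j < n, Chord G p i j) ∧
      ∀ j < n, ∀ j' < n, Chord G p i j → Chord G p i j' → j = j' := by
  have h3 := h.three
  obtain ⟨a, ha, a1, a2⟩ : ∃ a < n, G.Adj (p i) (p a) ∧ (a = i + 1 ∨ (a = 0 ∧ i + 1 = n)) := by
    by_cases z : i + 1 < n
    · exact ⟨i + 1, z, h.line i z, Or.inl rfl⟩
    · exact ⟨0, by omega, by rw [show i = n - 1 by omega]; exact h.close.symm, by omega⟩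
  obtain ⟨b, hb, b1, b2⟩ : ∃ b < n, G.Adj (p i) (p b) ∧ (i = b + 1 ∨ (i = 0 ∧ b + 1 = n)) := by
    by_cases z : i = 0
    · exact ⟨n - 1, by omega, by rw [z]; exact h.close, by omega⟩
    · refine ⟨i - 1, by omega, ?_, by omega⟩
      have := (h.line (i - 1) (by omega)).symm
      rwa [show i - 1 + 1 = i by omega] at this
  have hab : p a ≠ p b := fun e => by have := h.inj _ ha _ hb e; omega
  have hc : ((G.neighborFinset (p i)) \ {p a, p b}).card = 1 := by
    rw [Finset.card_sdiff_of_subset (by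
      intro x hx
      simp only [Finset.mem_insert, Finset.mem_singleton] at hx
      rcases hx with rfl | rfl <;> simpa), card_neighborFinset_eq_degree, hr,
      Finset.card_pair hab]
  obtain ⟨c, hc⟩ := Finset.card_eq_one.1 hc
  have hm : ∀ j < n, (Chord G p i j ↔ p j = c) := by
    intro j hj
    rw [← Finset.mem_singleton, ← hc]
    simp only [Finset.mem_sdiff, mem_neighborFinset, Finset.mem_insert, Finset.mem_singleton,
      Chord]
    refine and_congr_right fun _ => ⟨fun z e => ?_, fun z => ?_⟩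
    · rcases e with e | e
      · have := h.inj _ hj _ ha e; omega
      · have := h.inj _ hj _ hb e; omega
    · have z1 : j ≠ a := fun e => z (Or.inl (by rw [e]))
      have z2 : j ≠ b := fun e => z (Or.inr (by rw [e]))
      omega
  obtain ⟨j, hj, e⟩ := h.surj c
  exact ⟨⟨j, hj, (hm j hj).2 e⟩, fun j hj j' hj' c1 c2 =>
    h.inj _ hj _ hj' (((hm j hj).1 c1).trans ((hm j' hj').1 c2).symm)⟩

theorem Ham.diagram (h : Ham G p) [DecidableRel G.Adj] (hr : G.IsRegularOfDegree 3)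
    (hp : IsPlanar G) {m : ℕ → ℕ} (hm : ∀ i < n, m i < n ∧ Chord G p i (m i)) :
    (∃ side, Diagram n m side) ∧ Simple n m := by
  have h3 := h.three
  have hinv : ∀ i < n, m (m i) = i := fun i hi =>
    (h.chord hr (hm i hi).1).2 _ (hm _ (hm i hi).1).1 _ hi (hm _ (hm i hi).1).2 (hm i hi).2.symm
  obtain ⟨pos, arc, h1, h2, h4⟩ := hp
  obtain ⟨x, hx⟩ := exists_cocycle (fun a b => a < n ∧ b < n ∧ G.Adj (p a) (p b))
    (fun a => pos (p a)) (fun a b => arc (p a) (p b))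
    (fun a b e => ⟨(h2 _ _ e.2.2).1, (h2 _ _ e.2.2).2.2.1, (h2 _ _ e.2.2).2.2.2.1⟩)
    (fun a b c d e1 e2 ac ad bc bd s t e => by
      have n1 : p a ≠ p c := fun z => ac (h.inj _ e1.1 _ e2.1 z)
      have n2 : p a ≠ p d := fun z => ad (h.inj _ e1.1 _ e2.2.1 z)
      have n3 : p b ≠ p c := fun z => bc (h.inj _ e1.2.1 _ e2.1 z)
      have n4 : p b ≠ p d := fun z => bd (h.inj _ e1.2.1 _ e2.2.1 z)
      obtain ⟨-, -, x1, x2, -⟩ := h2 _ _ e1.2.2
      obtain ⟨-, -, y1, y2, -⟩ := h2 _ _ e2.2.2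
      obtain ⟨z1, z2⟩ := h4 _ _ _ _ e1.2.2 e2.2.2 (by simp [n1, n2]) s t e
      rcases z1 with rfl | rfl <;> rcases z2 with rfl | rfl
      · exact n1 (h1 (by rw [← x1, ← y1, e]))
      · exact n2 (h1 (by rw [← x1, ← y2, e]))
      · exact n3 (h1 (by rw [← x2, ← y1, e]))
      · exact n4 (h1 (by rw [← x2, ← y2, e])))
  obtain ⟨s, hs⟩ := side_of_cocycle (n := n) (fun i hi => ⟨by omega, hi, h.line i hi⟩)
    ⟨by omega, by omega, h.close⟩ hx
  refine ⟨⟨fun i => decide (s (min i (m i)) (max i (m i)) = 1), fun i hi => (hm i hi).1, hinv,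
    fun i hi e => (hm i hi).2.1.ne (by rw [e]), fun i hi => ?_, fun i hi j hj a b c => ?_⟩,
    h3, fun i hi => (hm i hi).2.2.1, fun e => (hm 0 (by omega)).2.2.2.2.1 ⟨rfl, by omega⟩⟩
  · simp only [hinv i hi, min_comm, max_comm]
  · have := hs i j (m i) (m j) a b c (hm j hj).1 ⟨hi, (hm i hi).1, (hm i hi).2.1⟩
      ⟨hj, (hm j hj).1, (hm j hj).2.1⟩
    rw [min_eq_left (by omega), max_eq_right (by omega), min_eq_left (by omega),
      max_eq_right (by omega)]
    generalize s i (m i) = u at *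
    generalize s j (m j) = w at *
    revert u w
    decide

theorem Ham.cycle (h : Ham G p) {m : ℕ → ℕ} {side : ℕ → Bool} {k j : ℕ} (hD : Diagram n m side)
    (hS : Simple n m) (hm : ∀ i < n, G.Adj (p i) (p (m i))) (hst : Stop m k j) :
    ∃ D : G.Walk (p 0) (p 0), D.IsCycle ∧ n ≤ D.length + 1 ∧
      ∀ a < n, ∀ b < n, (s(p a, p b) ∈ D.edges ↔ Fadj n m k j a b) := by
  classical
  have h3 := h.three
  have hG : ∀ a < n, ∀ b < n, Fadj n m k j a b → G.Adj (p a) (p b) := by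
    rintro a ha b hb (⟨rfl, -⟩ | ⟨rfl, -⟩ | ⟨rfl, e⟩ | ⟨rfl, e⟩ | ⟨rfl, -⟩)
    · exact h.line a hb
    · exact (h.line b ha).symm
    · rw [show b = n - 1 by omega]; exact h.close
    · rw [show a = n - 1 by omega]; exact h.close.symm
    · exact hm a ha
  let H : SimpleGraph (Fin n) :=
    { Adj := fun x y => ∃ a < n, ∃ b < n, p a = x ∧ p b = y ∧ Fadj n m k j a b
      symm := ⟨by
        rintro x y ⟨a, ha, b, hb, e1, e2, e⟩
        exact ⟨b, hb, a, ha, e2, e1, e.symm hD ha⟩⟩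
      loopless := ⟨by
        rintro x ⟨a, ha, b, hb, e1, e2, e⟩
        exact (hG a ha b hb e).ne (e1.trans e2.symm)⟩ }
  have hH : ∀ a < n, ∀ b < n, (H.Adj (p a) (p b) ↔ Fadj n m k j a b) := by
    intro a ha b hb
    refine ⟨?_, fun e => ⟨a, ha, b, hb, rfl, rfl, e⟩⟩
    rintro ⟨a', ha', b', hb', e1, e2, e⟩
    rwa [← h.inj _ ha' _ ha e1, ← h.inj _ hb' _ hb e2]
  have hle : H ≤ G := by
    rintro x y ⟨a, ha, b, hb, rfl, rfl, e⟩
    exact hG a ha b hb e
  have hnb : ∀ a < n, ∀ b, Fadj n m k j a b → a ≠ bad n m k j := fun a ha b e z =>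
    hst.not_adj_bad hD (z ▸ ha) b (z ▸ e)
  have hcyc : H.IsCycles := by
    rintro x ⟨y, a, ha, b, hb, rfl, rfl, e⟩
    obtain ⟨q1, c1, q2, c2, c3, c4⟩ := hst.degree hD hS ha (hnb a ha b e)
    have : H.neighborSet (p a) = {p q1, p q2} := by
      ext z
      obtain ⟨q, hq, rfl⟩ := h.surj z
      rw [mem_neighborSet, hH a ha q hq, c4 q hq]
      simp only [Set.mem_insert_iff, Set.mem_singleton_iff]
      exact ⟨fun z => z.imp (congrArg p) (congrArg p),
        fun z => z.imp (h.inj _ hq _ c1) (h.inj _ hq _ c2)⟩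
    rw [this, Set.ncard_pair fun e => c3 (h.inj _ c1 _ c2 e)]
  have hlast : Fadj n m k j 0 (n - 1) := Or.inr (Or.inr (Or.inl ⟨rfl, by omega⟩))
  obtain ⟨D, hD1, hD2⟩ := hcyc.exists_cycle_toSubgraph_verts_eq_connectedComponentSupp
    (c := H.connectedComponentMk (p 0)) (v := p 0) rfl
    ⟨p (n - 1), (hH 0 (by omega) _ (by omega)).2 hlast⟩
  have hv : ∀ a < n, a ≠ bad n m k j → p a ∈ D.toSubgraph.verts := by
    intro a ha hb
    rw [hD2, ConnectedComponent.mem_supp_iff, ConnectedComponent.eq]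
    have := hst.connected hD (by omega) ha hb
    clear ha hb
    induction this with
    | refl => rfl
    | tail _ e ih => exact ((hH _ e.1 _ e.2.1).2 e.2.2).symm.reachable.trans ih
  refine ⟨D.mapLe hle, hD1.mapLe hle, ?_, fun a ha b hb => ?_⟩
  · rw [Walk.length_mapLe]
    have h1 : Finset.univ ⊆ insert (p (bad n m k j)) D.support.tail.toFinset := by
      intro x _
      obtain ⟨a, ha, rfl⟩ := h.surj x
      by_cases z : a = bad n m k j
      · simp [z]
      · have h2 := D.mem_verts_toSubgraph.1 (hv a ha z)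
        rw [Walk.mem_support_iff] at h2
        rw [Finset.mem_insert, List.mem_toFinset]
        right
        rcases h2 with e | e
        · rw [e]; exact D.end_mem_tail_support hD1.not_nil
        · exact e
    have h2 := (Finset.card_le_card h1).trans (Finset.card_insert_le _ _)
    have h4 := List.toFinset_card_le (l := D.support.tail)
    simp only [Finset.card_univ, Fintype.card_fin, List.length_tail, Walk.length_support] at h2 h4
    omega
  · rw [Walk.edges_mapLe_eq_edges, ← hH a ha b hb]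
    refine ⟨fun e => D.adj_of_mem_edges e, fun e => ?_⟩
    rw [← Walk.adj_toSubgraph_iff_mem_edges]
    exact (hD1.adj_toSubgraph_iff_of_isCycles hcyc
      (hv a ha (hnb a ha b ((hH a ha b hb).1 e))) _).2 e

end

/-- the algorithm on natural number labels -/
def algN (x : List (ℕ × ℕ) × List ℕ) : List (ℕ × ℕ) := Rep.down (alg (Rep.up x))

theorem algN_poly : N68a2faeb.IsPolyTime algN := isPolyTime_of_rep pt_alg fun _ => rfl

theorem main (n : ℕ) (G : SimpleGraph (Fin n)) [DecidableRel G.Adj] (E : List (ℕ × ℕ)) (v : Fin n)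
    (C : G.Walk v v) (hr : G.IsRegularOfDegree 3) (hp : IsPlanar G) (hE : Lists E G.edgeSet)
    (hC : C.IsHamiltonianCycle) :
    ∃ (w : Fin n) (D : G.Walk w w), D.IsCycle ∧
      Lists (algN (E, C.support.map Fin.val)) D.edgeSet ∧ n ≤ D.length + 1 ∧
      s(v, C.snd) ∈ D.edges ∧ ∃ e ∈ D.edges, e ∉ C.edges := by
  have hlen : C.length = n := by simpa using hC.length_eq
  have h3 : 3 ≤ n := hlen ▸ hC.isCycle.three_le_length
  let p : ℕ → Fin n := fun i => C.getVert (i + 1)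
  have hpl : p (n - 1) = C.getVert 0 := by
    simp only [p]
    rw [show n - 1 + 1 = C.length by omega]
    simp
  have h : Ham G p := ⟨h3, fun i hi j hj e => by
      have := hC.isCycle.getVert_injOn (show 1 ≤ i + 1 ∧ i + 1 ≤ C.length by omega)
        (show 1 ≤ j + 1 ∧ j + 1 ≤ C.length by omega) e
      omega,
    fun i hi => C.adj_getVert_succ (by omega),
    by rw [hpl]; exact (C.adj_getVert_succ (by omega)).symm⟩
  set E' : List (ℤ × ℤ) := Rep.up E with hE'
  set L : List ℤ := (Rep.up (C.support.map Fin.val) : List ℤ).tail with hL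
  have hLl : L.length = n := by simp [hL, hlen]
  have hLg : ∀ i < n, L.getD i 0 = ((p i).val : ℤ) := by
    intro i hi
    rw [List.getD_eq_getElem _ _ (by omega)]
    simp [hL, p, C.getVert_eq_support_getElem (show i + 1 ≤ C.length by omega)]
  have hEm : ∀ a b : ℕ, ((a : ℤ), (b : ℤ)) ∈ E' ↔ (a, b) ∈ E := by
    intro a b
    simp only [hE', up_list, up_prod, up_nat, List.mem_map, Prod.mk.injEq, Nat.cast_inj]
    exact ⟨fun ⟨x, h1, h2, h3⟩ => by rwa [← h2, ← h3], fun z => ⟨_, z, rfl, rfl⟩⟩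
  have hch : ∀ i < n, ∀ j < n, (Ch E' L i j ↔ Chord G p i j) := by
    intro i hi j hj
    unfold Ch Chord
    rw [hLg i hi, hLg j hj, hEm, hEm, ← hE.2, hLl, mem_edgeSet]
  set M := mList E' L with hM
  have hMl : M.length = n := by simp [hM, mList, hLl]
  have hm : ∀ i < n, mf M i < n ∧ Chord G p i (mf M i) := by
    intro i hi
    obtain ⟨j, hj, e⟩ := (h.chord hr hi).1
    have h1 := find_range (p := fun j => Ch E' L i j) (n := n) ⟨j, hj, (hch i hi j hj).2 e⟩
    have h2 : mf M i = ((List.range n).find? fun j => decide (Ch E' L i j)).getD 0 := by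
      unfold mf
      rw [List.getD_eq_getElem _ _ (by omega)]
      simp [hM, mList, hLl]
    rw [h2]
    exact ⟨h1.1, (hch i hi _ h1.1).1 h1.2.1⟩
  obtain ⟨⟨side, hD⟩, hS⟩ := h.diagram hr hp hm
  have hst := stop_alg (M := M) (hMl ▸ hD) (by omega)
  obtain ⟨D, d1, d2, d3⟩ := h.cycle hD hS (fun i hi => (hm i hi).2.1) hst
  have hout : ∀ x : ℕ × ℕ, x ∈ algN (E, C.support.map Fin.val) ↔
      ∃ a < n, ∃ b < a, Fadj n (mf M) (kk M) (jj M) a b ∧ x = ((p a).val, (p b).val) := by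
    intro x
    change x ∈ ((pairs M).map fun y => (L.getD y.1 0, L.getD y.2 0)).map Rep.down ↔ _
    simp only [List.mem_map, Prod.exists, mem_pairs, hMl]
    constructor
    · rintro ⟨_, _, ⟨a, b, ⟨a1, a2, a3⟩, e⟩, rfl⟩
      obtain ⟨rfl, rfl⟩ := Prod.mk.inj e
      exact ⟨a, a1, b, a2, a3, by rw [hLg a a1, hLg b (by omega)]; rfl⟩
    · rintro ⟨a, a1, b, a2, a3, rfl⟩
      exact ⟨_, _, ⟨a, b, ⟨a1, a2, a3⟩, rfl⟩, by rw [hLg a a1, hLg b (by omega)]; rfl⟩
  refine ⟨_, D, d1, ⟨fun x hx => ?_, fun x y => ?_⟩, d2, ?_, ?_⟩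
  · obtain ⟨a, -, b, -, -, rfl⟩ := (hout x).1 hx
    exact ⟨(p a).2, (p b).2⟩
  · obtain ⟨a, ha, rfl⟩ := h.surj x
    obtain ⟨b, hb, rfl⟩ := h.surj y
    rw [Walk.mem_edgeSet, d3 a ha b hb, hout, hout]
    constructor
    · intro e
      rcases lt_trichotomy a b with z | z | z
      · exact Or.inr ⟨b, hb, a, z, e.symm hD ha, rfl⟩
      · subst z
        exact absurd (D.adj_of_mem_edges ((d3 a ha a ha).2 e)) (G.irrefl)
      · exact Or.inl ⟨a, ha, b, z, e, rfl⟩
    · rintro (⟨a', a1, b', a2, a3, e⟩ | ⟨a', a1, b', a2, a3, e⟩) <;>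
        obtain ⟨e1, e2⟩ := Prod.mk.inj e
      · rwa [h.inj _ ha _ a1 (Fin.ext e1), h.inj _ hb _ (by omega) (Fin.ext e2)]
      · rw [h.inj _ hb _ a1 (Fin.ext e1), h.inj _ ha _ (by omega) (Fin.ext e2)]
        exact a3.symm hD a1
  · have := (d3 (n - 1) (by omega) 0 (by omega)).2
      (Or.inr (Or.inr (Or.inr (Or.inl ⟨rfl, by omega⟩))))
    rwa [hpl, Walk.getVert_zero] at this
  · obtain ⟨a, ha, e⟩ := hst.exists_us hD (by omega)
    obtain ⟨m1, -, m2, m3, m4, m5⟩ := hm a ha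
    refine ⟨_, (d3 a ha _ m1).2 (Or.inr (Or.inr (Or.inr (Or.inr ⟨rfl, Or.inl e⟩)))), fun z => ?_⟩
    obtain ⟨t, ht, z⟩ := (C.mk_mem_edges_iff_exists).1 z
    obtain ⟨u, hu, e1, e2⟩ : ∃ u < n, C.getVert t = p u ∧ (t = u + 1 ∨ (t = 0 ∧ u + 1 = n)) := by
      cases t with
      | zero => exact ⟨n - 1, by omega, hpl.symm, by omega⟩
      | succ t => exact ⟨t, by omega, rfl, Or.inl rfl⟩
    rw [e1] at z
    change s(p u, p t) = _ at z
    rcases Sym2.eq_iff.1 z with ⟨z1, z2⟩ | ⟨z1, z2⟩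
    · have := h.inj _ hu _ ha z1
      have := h.inj _ (by omega) _ m1 z2
      omega
    · have := h.inj _ hu _ m1 z1
      have := h.inj _ (by omega) _ ha z2
      omega

end Pool.Agent.Lib.MP_33ce69_lc
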