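import Pool.Agent.Lib.MP_33ce69_lc.Core

/-!
The static walk, its first revisit and the exchanged graph.
-/

namespace Pool.Agent.Lib.MP_33ce69_lc

open Finset

/-- the static walk -/
def sq (m : ℕ → ℕ) (i : ℕ) : ℕ := (nx m)^[i] 0

theorem sq_succ (m : ℕ → ℕ) (i : ℕ) : sq m (i + 1) = nx m (sq m i) :=
  Function.iterate_succ_apply' _ _ _

def Hit (m : ℕ → ℕ) (k i : ℕ) : Prop := sq m k = sq m i ∨ sq m k = m (sq m i)

instance (m : ℕ → ℕ) (k i : ℕ) : Decidable (Hit m k i) := by unfold Hit; infer_instance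

structure Stop (m : ℕ → ℕ) (k j : ℕ) : Prop where
  min : ∀ k' < k, ∀ i < k', ¬ Hit m k' i
  jk : j < k
  hit : Hit m k j

structure Simple (n : ℕ) (m : ℕ → ℕ) : Prop where
  three : 3 ≤ n
  succ : ∀ p < n, m p ≠ p + 1
  last : m 0 ≠ n - 1

def j0 (m : ℕ → ℕ) (k j : ℕ) : ℕ := if sq m k = sq m j then j else j + 1

/-- removed gaps -/
def Rm (m : ℕ → ℕ) (k j g : ℕ) : Prop := ∃ i ∈ List.range k, j ≤ i ∧ gap m (sq m i) = g

/-- departure vertices -/
def Us (m : ℕ → ℕ) (k j p : ℕ) : Prop := ∃ i ∈ List.range k, j0 m k j ≤ i ∧ sq m i = p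

instance (m : ℕ → ℕ) (k j g : ℕ) : Decidable (Rm m k j g) := by unfold Rm; infer_instance
instance (m : ℕ → ℕ) (k j g : ℕ) : Decidable (Us m k j g) := by unfold Us; infer_instance

/-- adjacency after the exchange -/
def Fadj (n : ℕ) (m : ℕ → ℕ) (k j p q : ℕ) : Prop :=
  (q = p + 1 ∧ ¬ Rm m k j p) ∨ (p = q + 1 ∧ ¬ Rm m k j q) ∨ (p = 0 ∧ q + 1 = n) ∨
    (q = 0 ∧ p + 1 = n) ∨ (q = m p ∧ (Us m k j p ∨ Us m k j q))

instance (n : ℕ) (m : ℕ → ℕ) (k j p q : ℕ) : Decidable (Fadj n m k j p q) := by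
  unfold Fadj; infer_instance

/-- the missed vertex -/
def bad (n : ℕ) (m : ℕ → ℕ) (k j : ℕ) : ℕ := if sq m k = sq m j then n else sq m k

variable {n : ℕ} {m : ℕ → ℕ} {side : ℕ → Bool} {k j : ℕ}

theorem sq_lt (hD : Diagram n m side) (hn : 0 < n) (i : ℕ) : sq m i < n := by
  induction i with
  | zero => exact hn
  | succ i ih =>
    rw [sq_succ]
    have := gap_cases hD ih
    have := hD.lt _ ih
    omega

theorem exists_hit (hD : Diagram n m side) (hn : 0 < n) : ∃ k < n + 1, ∃ i < k, Hit m k i := by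
  obtain ⟨a, ha, b, hb, hab, e⟩ := exists_ne_map_eq_of_card_lt_of_maps_to (s := range (n + 1))
    (t := range n) (by simp) (f := sq m) (fun i _ => by simpa using sq_lt hD hn i)
  rcases lt_or_gt_of_ne hab with h | h
  · exact ⟨b, mem_range.1 hb, a, h, Or.inl e.symm⟩
  · exact ⟨a, mem_range.1 ha, b, h, Or.inl e⟩

theorem Stop.inj (h : Stop m k j) {a c : ℕ} (ha : a < k) (hc : c < k) (e : sq m a = sq m c) :
    a = c := by
  rcases lt_trichotomy a c with h1 | h1 | h1
  · exact absurd (Or.inl e.symm) (h.min c hc a h1)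
  · exact h1
  · exact absurd (Or.inl e) (h.min a ha c h1)

theorem Stop.ne (h : Stop m k j) (hD : Diagram n m side) (hn : 0 < n) {a c : ℕ} (ha : a < k)
    (hc : c < k) : sq m a ≠ m (sq m c) := by
  intro e
  rcases lt_trichotomy a c with h1 | h1 | h1
  · exact h.min c hc a h1 (Or.inr (by rw [e, hD.inv _ (sq_lt hD hn c)]))
  · subst h1; exact hD.ne _ (sq_lt hD hn a) e.symm
  · exact h.min a ha c h1 (Or.inr e)

theorem gap_sq (hD : Diagram n m side) (hn : 0 < n) (i : ℕ) : gap m (sq m i) + 1 < n ∧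
    ((gap m (sq m i) = m (sq m i) ∧ gap m (sq m i) + 1 = sq m (i + 1)) ∨
      (gap m (sq m i) + 1 = m (sq m i) ∧ gap m (sq m i) = sq m (i + 1))) := by
  have h1 := sq_lt hD hn i
  have h2 := gap_cases hD h1
  have h3 := hD.lt _ h1
  rw [sq_succ]
  omega

theorem Stop.cases (h : Stop m k j) :
    (sq m k = sq m j ∧ j0 m k j = j ∧ bad n m k j = n) ∨
    (sq m k = m (sq m j) ∧ j0 m k j = j + 1 ∧ bad n m k j = sq m k) := by
  unfold j0 bad
  by_cases e : sq m k = sq m j
  · simp [e]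
  · rw [if_neg e, if_neg e]
    exact Or.inr ⟨h.hit.resolve_left e, rfl, rfl⟩

theorem Stop.inc_unique (h : Stop m k j) (hD : Diagram n m side) (hn : 0 < n) {p i i' : ℕ}
    (hp : p ≠ bad n m k j) (h1 : j ≤ i) (h2 : i < k) (h1' : j ≤ i') (h2' : i' < k)
    (e : p = m (sq m i) ∨ p = sq m (i + 1)) (e' : p = m (sq m i') ∨ p = sq m (i' + 1)) : i = i' := by
  have hc := h.cases (n := n)
  have jk := h.jk
  have a1 : ∀ a c, a < k → c < k → p = m (sq m a) → p = sq m (c + 1) → False := by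
    intro a c ha hc' x y
    by_cases z : c + 1 < k
    · exact h.ne hD hn z ha (y ▸ x)
    · obtain rfl : k = c + 1 := by omega
      rcases hc with ⟨b1, -, -⟩ | ⟨-, -, b3⟩
      · exact h.ne hD hn jk ha (by rw [← b1, ← y, x])
      · exact hp (y.trans b3.symm)
  have a2 : ∀ a c, j ≤ c → a + 1 = k → c + 1 < k → p = sq m (a + 1) → p = sq m (c + 1) → False := by
    intro a c hjc ha hc' x y
    rcases hc with ⟨b1, -, -⟩ | ⟨-, -, b3⟩
    · have := h.inj jk hc' (by rw [← b1, ← ha, ← x, y]); omega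
    · exact hp (by rw [b3, ← ha, x])
  rcases e with e | e <;> rcases e' with e' | e'
  · refine h.inj h2 h2' ?_
    rw [← hD.inv _ (sq_lt hD hn i), ← e, e', hD.inv _ (sq_lt hD hn i')]
  · exact (a1 _ _ h2 h2' e e').elim
  · exact (a1 _ _ h2' h2 e' e).elim
  · by_cases z : i + 1 < k <;> by_cases z' : i' + 1 < k
    · have := h.inj z z' (e.symm.trans e'); omega
    · exact (a2 i' i h1 (by omega) z e' e).elim
    · exact (a2 i i' h1' (by omega) z' e e').elim
    · omega

theorem Stop.inc_iff (h : Stop m k j) (hD : Diagram n m side) {p : ℕ} (hpn : p < n)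
    (hp : p ≠ bad n m k j) :
    (∃ i, j ≤ i ∧ i < k ∧ (p = m (sq m i) ∨ p = sq m (i + 1))) ↔
      (Us m k j p ∨ Us m k j (m p)) := by
  have hn : 0 < n := by omega
  have hc := h.cases (n := n)
  have jk := h.jk
  simp only [Us, List.mem_range]
  constructor
  · rintro ⟨i, h1, h2, e | e⟩
    · right
      refine ⟨i, h2, ?_, by rw [e, hD.inv _ (sq_lt hD hn i)]⟩
      rcases hc with ⟨-, b2, -⟩ | ⟨b1, b2, b3⟩
      · omega
      · by_contra z
        obtain rfl : i = j := by omega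
        exact hp (by rw [b3, b1, e])
    · left
      by_cases z : i + 1 < k
      · exact ⟨i + 1, z, by omega, e.symm⟩
      · obtain rfl : k = i + 1 := by omega
        rcases hc with ⟨b1, b2, -⟩ | ⟨-, -, b3⟩
        · exact ⟨j, jk, by omega, by rw [← b1, e]⟩
        · exact absurd (e.trans b3.symm) hp
  · rintro (⟨a, h1, h2, e⟩ | ⟨a, h1, h2, e⟩)
    · by_cases z : j < a
      · exact ⟨a - 1, by omega, by omega, Or.inr (by rw [← e]; congr 1; omega)⟩
      · rcases hc with ⟨b1, b2, -⟩ | ⟨-, b2, -⟩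
        · obtain rfl : a = j := by omega
          exact ⟨k - 1, by omega, by omega, Or.inr (by rw [← e, ← b1]; congr 1; omega)⟩
        · omega
    · exact ⟨a, by omega, h1, Or.inl (by rw [e, hD.inv _ hpn])⟩

theorem Stop.bad_rm (h : Stop m k j) (hD : Diagram n m side) (hb : bad n m k j < n) :
    Rm m k j (bad n m k j) ∧ 0 < bad n m k j ∧ Rm m k j (bad n m k j - 1) ∧ j + 1 < k ∧
      sq m k = m (sq m j) ∧ j0 m k j = j + 1 ∧ bad n m k j = sq m k := by
  have hn : 0 < n := by omega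
  have jk := h.jk
  rcases h.cases (n := n) with ⟨-, -, b3⟩ | ⟨b1, b2, b3⟩
  · omega
  have g1 := gap_sq hD hn j
  have g2 := gap_sq hD hn (k - 1)
  rw [show k - 1 + 1 = k by omega] at g2
  have jk' : j + 1 < k := by
    by_contra z
    rw [show j + 1 = k by omega] at g1
    omega
  have g3 := h.ne hD hn jk' (show k - 1 < k by omega)
  simp only [Rm, List.mem_range]
  rw [b3]
  refine ⟨?_, by omega, ?_, jk', b1, b2, rfl⟩
  · by_cases z : gap m (sq m j) = sq m k
    · exact ⟨j, jk, le_rfl, z⟩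
    · exact ⟨k - 1, by omega, by omega, by omega⟩
  · by_cases z : gap m (sq m j) = sq m k - 1
    · exact ⟨j, jk, le_rfl, z⟩
    · exact ⟨k - 1, by omega, by omega, by omega⟩

theorem rm_lt (hD : Diagram n m side) (hn : 0 < n) {g : ℕ} (h : Rm m k j g) : g + 1 < n := by
  obtain ⟨i, -, -, rfl⟩ := h
  exact (gap_sq hD hn i).1

theorem Fadj.symm (hD : Diagram n m side) {p q : ℕ} (hp : p < n) (h : Fadj n m k j p q) :
    Fadj n m k j q p := by
  have := hD.inv p hp
  unfold Fadj at h ⊢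
  rcases h with h | h | h | h | ⟨h1, h2⟩
  · tauto
  · tauto
  · tauto
  · tauto
  · subst h1; tauto

theorem Stop.not_adj_bad (h : Stop m k j) (hD : Diagram n m side) (hb : bad n m k j < n) (q : ℕ) :
    ¬ Fadj n m k j (bad n m k j) q := by
  have hn : 0 < n := by omega
  obtain ⟨a1, a2, a3, a4, a5, a6, a7⟩ := h.bad_rm hD hb
  have := rm_lt hD hn a1
  rintro (⟨-, e⟩ | ⟨e1, e⟩ | ⟨e, -⟩ | ⟨-, e⟩ | ⟨e1, e⟩)
  · exact e a1
  · exact e (by rwa [show q = bad n m k j - 1 by omega])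
  · omega
  · omega
  · simp only [Us, List.mem_range] at e
    rcases e with ⟨i, i1, i2, i3⟩ | ⟨i, i1, i2, i3⟩
    · exact h.ne hD hn i1 h.jk (by rw [i3, a7, a5])
    · have := h.inj i1 h.jk (by rw [i3, e1, a7, a5, hD.inv _ (sq_lt hD hn j)])
      omega

theorem Stop.degree (h : Stop m k j) (hD : Diagram n m side) (hS : Simple n m) {p : ℕ}
    (hpn : p < n) (hp : p ≠ bad n m k j) :
    ∃ q1 < n, ∃ q2 < n, q1 ≠ q2 ∧ ∀ q < n, (Fadj n m k j p q ↔ q = q1 ∨ q = q2) := by
  have hn : 0 < n := by omega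
  have h3 := hS.three
  have hU := h.inc_iff hD hpn hp
  have hR : Rm m k j p ∨ (0 < p ∧ Rm m k j (p - 1)) ↔ (Us m k j p ∨ Us m k j (m p)) := by
    rw [← hU]
    simp only [Rm, List.mem_range]
    constructor
    · rintro (⟨i, i1, i2, i3⟩ | ⟨z, i, i1, i2, i3⟩)
      · have := gap_sq hD hn i
        exact ⟨i, i2, i1, by omega⟩
      · have := gap_sq hD hn i
        exact ⟨i, i2, i1, by omega⟩
    · rintro ⟨i, i1, i2, i3⟩
      have := gap_sq hD hn i
      by_cases z : gap m (sq m i) = p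
      · exact Or.inl ⟨i, i2, i1, z⟩
      · exact Or.inr ⟨by omega, i, i2, i1, by omega⟩
  have hX : ¬ (Rm m k j p ∧ 0 < p ∧ Rm m k j (p - 1)) := by
    simp only [Rm, List.mem_range]
    rintro ⟨⟨i, i1, i2, i3⟩, z, i', i1', i2', i3'⟩
    have g1 := gap_sq hD hn i
    have g2 := gap_sq hD hn i'
    have := h.inc_unique hD hn hp i2 i1 i2' i1' (by omega) (by omega)
    subst this
    omega
  have m1 := hD.lt p hpn
  have m2 := hS.succ p hpn
  have m3 : m p + 1 ≠ p := fun e => hS.succ _ m1 (by rw [hD.inv p hpn, e])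
  have m4 : p = 0 → m p + 1 ≠ n := fun e e' => hS.last (by rw [← e', e]; rfl)
  have m5 : p + 1 = n → m p ≠ 0 := fun e e' => hS.last (by rw [← e', hD.inv p hpn]; omega)
  have r1 : Rm m k j p → p + 1 < n := rm_lt hD hn
  have key : ∀ q < n, (Fadj n m k j p q ↔
      (q = (if p + 1 = n then 0 else p + 1) ∧ ¬ Rm m k j p) ∨
      (q = (if p = 0 then n - 1 else p - 1) ∧ ¬ (0 < p ∧ Rm m k j (p - 1))) ∨
      (q = m p ∧ (Us m k j p ∨ Us m k j (m p)))) := by
    intro q hq
    unfold Fadj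
    constructor
    · rintro (⟨e1, e⟩ | ⟨e1, e⟩ | ⟨e1, e⟩ | ⟨e1, e⟩ | ⟨e1, e⟩)
      · exact Or.inl ⟨by rw [if_neg (by omega), e1], e⟩
      · exact Or.inr (Or.inl ⟨by rw [if_neg (by omega)]; omega,
          fun z => e (by rw [show q = p - 1 by omega]; exact z.2)⟩)
      · exact Or.inr (Or.inl ⟨by rw [if_pos e1]; omega, by omega⟩)
      · exact Or.inl ⟨by rw [if_pos e, e1], fun z => by have := r1 z; omega⟩
      · exact Or.inr (Or.inr ⟨e1, e1 ▸ e⟩)
    · rintro (⟨e1, e⟩ | ⟨e1, e⟩ | ⟨e1, e⟩)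
      · split_ifs at e1 with z
        · exact Or.inr (Or.inr (Or.inr (Or.inl ⟨e1, z⟩)))
        · exact Or.inl ⟨e1, e⟩
      · split_ifs at e1 with z
        · exact Or.inr (Or.inr (Or.inl ⟨z, by omega⟩))
        · exact Or.inr (Or.inl ⟨by omega, fun y => e ⟨by omega, e1 ▸ y⟩⟩)
      · exact Or.inr (Or.inr (Or.inr (Or.inr ⟨e1, e1 ▸ e⟩)))
  by_cases c1 : Rm m k j p
  · refine ⟨if p = 0 then n - 1 else p - 1, by split_ifs <;> omega, m p, m1,
      by split_ifs <;> omega, fun q hq => ?_⟩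
    rw [key q hq]
    have h1 := hR.1 (Or.inl c1)
    have h2 : ¬ (0 < p ∧ Rm m k j (p - 1)) := fun z => hX ⟨c1, z⟩
    simp only [c1, h1, h2, not_true_eq_false, and_false, false_or, not_false_eq_true, and_true]
  by_cases c2 : 0 < p ∧ Rm m k j (p - 1)
  · refine ⟨if p + 1 = n then 0 else p + 1, by split_ifs <;> omega, m p, m1,
      by split_ifs <;> omega, fun q hq => ?_⟩
    rw [key q hq]
    have h1 := hR.1 (Or.inr c2)
    simp only [c1, h1, c2, not_true_eq_false, and_false, false_or, not_false_eq_true, and_true,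
      and_self]
  · refine ⟨if p + 1 = n then 0 else p + 1, by split_ifs <;> omega,
      if p = 0 then n - 1 else p - 1, by split_ifs <;> omega,
      by split_ifs <;> omega, fun q hq => ?_⟩
    rw [key q hq]
    have h1 : ¬ (Us m k j p ∨ Us m k j (m p)) := fun z => (hR.2 z).elim c1 c2
    simp only [c1, h1, c2, and_false, or_false, not_false_eq_true, and_true]

theorem Stop.exists_us (h : Stop m k j) (hD : Diagram n m side) (hn : 0 < n) :
    ∃ p < n, Us m k j p := by
  have jk := h.jk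
  refine ⟨sq m (k - 1), sq_lt hD hn _, k - 1, List.mem_range.2 (by omega), ?_, rfl⟩
  rcases h.cases (n := n) with ⟨-, b2, -⟩ | ⟨-, b2, b3⟩
  · omega
  · have := (h.bad_rm hD (b3 ▸ sq_lt hD hn k)).2.2.2.1
    omega

theorem Stop.connected (h : Stop m k j) (hD : Diagram n m side) (hn : 0 < n) {p : ℕ}
    (hpn : p < n) (hp : p ≠ bad n m k j) :
    Relation.ReflTransGen (fun a c => a < n ∧ c < n ∧ Fadj n m k j a c) 0 p := by
  classical
  have jk := h.jk
  set b := bad n m k j with hb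
  set Y := (Ico (j0 m k j) k).image (sq m) with hY
  have hmem : ∀ y, y ∈ Y ↔ Us m k j y := by
    intro y
    simp only [hY, mem_image, mem_Ico, Us, List.mem_range]
    constructor
    · rintro ⟨i, ⟨i1, i2⟩, i3⟩; exact ⟨i, i2, i1, i3⟩
    · rintro ⟨i, i1, i2, i3⟩; exact ⟨i, ⟨i2, i1⟩, i3⟩
  have hY1 : ∀ y ∈ Y, y < n := by
    intro y hy
    obtain ⟨i, -, rfl⟩ := mem_image.1 hy
    exact sq_lt hD hn i
  have hY2 : ∀ y ∈ Y, m y ∉ Y := by
    intro y hy hy'
    obtain ⟨i, i1, rfl⟩ := mem_image.1 hy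
    obtain ⟨i', i1', e⟩ := mem_image.1 hy'
    exact h.ne hD hn (mem_Ico.1 i1').2 (mem_Ico.1 i1).2 e
  have hj0 : j ≤ j0 m k j ∧ j0 m k j < k := by
    rcases h.cases (n := n) with ⟨-, b2, -⟩ | ⟨-, b2, b3⟩
    · omega
    · have := (h.bad_rm hD (b3 ▸ sq_lt hD hn k)).2.2.2.1
      omega
  let σ : ℕ → ℕ := fun y => if y = sq m (k - 1) then sq m (j0 m k j) else nx m y
  have hσ1 : ∀ i, i < k → σ (sq m i) = sq m (if i + 1 = k then j0 m k j else i + 1) := by
    intro i hi
    by_cases z : i + 1 = k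
    · rw [if_pos z, show i = k - 1 by omega]; simp [σ]
    · rw [if_neg z, sq_succ]
      exact if_neg fun e => by have := h.inj hi (by omega) e; omega
  have hσ : Set.BijOn σ Y Y := by
    have hm : Set.MapsTo σ Y Y := by
      intro y hy
      obtain ⟨i, i1, rfl⟩ := mem_image.1 (mem_coe.1 hy)
      rw [mem_Ico] at i1
      rw [hσ1 i i1.2]
      exact mem_coe.2 (mem_image.2 ⟨_, mem_Ico.2 (by split_ifs <;> omega), rfl⟩)
    have hi : Set.InjOn σ Y := by
      intro y hy y' hy' e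
      obtain ⟨i, i1, rfl⟩ := mem_image.1 (mem_coe.1 hy)
      obtain ⟨i', i1', rfl⟩ := mem_image.1 (mem_coe.1 hy')
      rw [mem_Ico] at i1 i1'
      rw [hσ1 i i1.2, hσ1 i' i1'.2] at e
      have := h.inj (by split_ifs <;> omega) (by split_ifs <;> omega) e
      have : i = i' := by split_ifs at this <;> omega
      rw [this]
    exact (Set.Finite.injOn_iff_bijOn_of_mapsTo Y.finite_toSet hm).1 hi
  have hgap : b < n → ∀ y ∈ Y, gap m y ≠ gap m (sq m j) := by
    intro hbn y hy e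
    obtain ⟨-, -, -, a4, a5, a6, a7⟩ := h.bad_rm hD hbn
    obtain ⟨i, i1, rfl⟩ := mem_image.1 hy
    rw [mem_Ico] at i1
    have g1 := gap_sq hD hn i
    have g2 := gap_sq hD hn j
    have g3 := h.ne hD hn a4 i1.2
    have g4 : m (sq m i) ≠ m (sq m j) := fun z => by
      have := h.inj i1.2 jk (by rw [← hD.inv _ (sq_lt hD hn i), z, hD.inv _ (sq_lt hD hn j)])
      omega
    omega
  have hf : ∀ col, Closed n m Y col → ∀ y ∈ Y, (col (nx m y) ↔ col (σ y)) := by
    intro col hc y hy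
    by_cases z : y = sq m (k - 1)
    · have e1 : nx m y = sq m k := by rw [z, ← sq_succ]; congr 1; omega
      have e2 : σ y = sq m (j0 m k j) := if_pos z
      rw [e1, e2]
      rcases h.cases (n := n) with ⟨b1, b2, -⟩ | ⟨b1, b2, b3⟩
      · rw [b1, b2]
      · have g2 := gap_sq hD hn j
        have := hc.line _ g2.1 (hgap (by rw [hb, b3]; exact sq_lt hD hn k))
        rw [b1, b2]
        rcases g2.2 with ⟨x1, x2⟩ | ⟨x1, x2⟩
        · rw [← x1, ← x2]; exact this
        · rw [← x1, ← x2]; exact this.symm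
    · rw [show σ y = nx m y from if_neg z]
  let Rch : ℕ → Prop := Relation.ReflTransGen (fun a c => a < n ∧ c < n ∧ Fadj n m k j a c) 0
  have hadj : ∀ a c, a < n → c < n → Fadj n m k j a c → (Rch a ↔ Rch c) := fun a c ha hc e =>
    ⟨fun x => x.tail ⟨ha, hc, e⟩, fun x => x.tail ⟨hc, ha, e.symm hD ha⟩⟩
  have hnb : ∀ a c, Fadj n m k j a c → a < n → a ≠ b := fun a c e ha z =>
    h.not_adj_bad hD (hb ▸ z ▸ ha) c (hb ▸ z ▸ e)
  have hadj' : ∀ a c, a < n → c < n → Fadj n m k j a c →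
      (¬ Rch (if a = b then sq m (j + 1) else a) ↔ ¬ Rch (if c = b then sq m (j + 1) else c)) := by
    intro a c ha hc e
    rw [if_neg (hnb a c e ha), if_neg (hnb c a (e.symm hD ha) hc), hadj a c ha hc e]
  have hlast : Fadj n m k j 0 (n - 1) := Or.inr (Or.inr (Or.inl ⟨rfl, by omega⟩))
  have h0 : ¬ ¬ Rch (if 0 = b then sq m (j + 1) else 0) := by
    rw [if_neg (hnb _ _ hlast hn)]
    exact not_not.2 Relation.ReflTransGen.refl
  have := descent hD hY1 hY2 hσ hf (col := fun a => ¬ Rch (if a = b then sq m (j + 1) else a))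
    ⟨?_, ?_⟩ h0 (fun z => h0 ((hadj' _ _ hn (by omega) hlast).2 z)) p hpn
  · rw [if_neg hp] at this
    exact not_not.1 this
  · intro g hg hy
    by_cases z : Rm m k j g
    · obtain ⟨i, i1, i2, i3⟩ := z
      rw [List.mem_range] at i1
      have i4 : i < j0 m k j := by
        by_contra x
        exact hy _ (mem_image.2 ⟨i, mem_Ico.2 ⟨by omega, i1⟩, rfl⟩) i3
      rcases h.cases (n := n) with ⟨-, b2, -⟩ | ⟨b1, b2, b3⟩
      · omega
      · obtain rfl : i = j := by omega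
        have g2 := gap_sq hD hn i
        have x1 : (if g = b then sq m (i + 1) else g) = sq m (i + 1) := by split_ifs <;> omega
        have x2 : (if g + 1 = b then sq m (i + 1) else g + 1) = sq m (i + 1) := by
          split_ifs <;> omega
        simp only [x1, x2]
    · exact hadj' _ _ (by omega) hg (Or.inl ⟨rfl, z⟩)
  · intro y hy
    exact hadj' _ _ (hY1 y hy) (hD.lt y (hY1 y hy))
      (Or.inr (Or.inr (Or.inr (Or.inr ⟨rfl, Or.inl ((hmem y).1 hy)⟩))))

end Pool.Agent.Lib.MP_33ce69_lc
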